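import Pool.Agent.ERamsey.Config
import Pool.Agent.ERamsey.Extend

/-!
MP_e0af59_co, Q1: every admissible configuration (a rectangle plus two off-centre points) is Ramsey.
-/

namespace Pool.Agent.Results.MP_e0af59_co.AdmissibleRamsey

open InnerProductSpace Pool.Agent.ERamsey

/-- The standard inclusion of `ℝⁿ` in `ℝᴺ` (meaningful for `n ≤ N`): append zeros. -/
noncomputable def incl {n N : ℕ} (x : EuclideanSpace ℝ (Fin n)) : EuclideanSpace ℝ (Fin N) :=
  WithLp.toLp 2 (fun i : Fin N => if h : i.val < n then x ⟨i.val, h⟩ else 0)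

/-- `X ⊂ ℝⁿ` is Ramsey: `X` is finite and for every `k ≥ 1` there is `N ≥ n` such that every
colouring of `ℝᴺ` with `k` colours contains a monochromatic set congruent to `X`, i.e. the image of
`X ⊂ ℝⁿ ⊂ ℝᴺ` under some isometry of `ℝᴺ` is monochromatic. -/
def IsRamsey {n : ℕ} (X : Set (EuclideanSpace ℝ (Fin n))) : Prop :=
  X.Finite ∧ ∀ k : ℕ, 1 ≤ k → ∃ N : ℕ, n ≤ N ∧ ∀ c : EuclideanSpace ℝ (Fin N) → Fin k,
    ∃ e : EuclideanSpace ℝ (Fin N) ≃ᵢ EuclideanSpace ℝ (Fin N), ∃ col : Fin k,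
      ∀ x ∈ X, c (e (incl x)) = col

/-- Admissible configurations: `a 0, a 1, a 2, a 3` are the vertices, in cyclic order, of a
(nondegenerate) rectangle in the plane `x₃ = 0`; `p ≠ q` have the same height `x₃ = h > 0`;
with `c` the centre of the rectangle and `m = (p + q) / 2`:
1. the orthogonal projection of `m` onto `x₃ = 0` is not `c`;
2. `(c - m) · (q - p) = 0`;
3. the angle between the segment `pq` and the side `a 0 a 1` is not a rational multiple of `π`.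
(The third coordinate has index `2`.) -/
structure Admissible (a : Fin 4 → EuclideanSpace ℝ (Fin 3)) (p q : EuclideanSpace ℝ (Fin 3)) :
    Prop where
  flat : ∀ i, a i 2 = 0
  parallelogram : a 1 - a 0 = a 2 - a 3
  perpendicular : ⟪a 1 - a 0, a 3 - a 0⟫_ℝ = 0
  side₁ : a 1 ≠ a 0
  side₂ : a 3 ≠ a 0
  ne : p ≠ q
  height : p 2 = q 2
  pos : 0 < p 2
  off_centre : ¬ ((midpoint ℝ p q) 0 = (midpoint ℝ (a 0) (a 2)) 0 ∧
    (midpoint ℝ p q) 1 = (midpoint ℝ (a 0) (a 2)) 1)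
  perp : ⟪midpoint ℝ (a 0) (a 2) - midpoint ℝ p q, q - p⟫_ℝ = 0
  angle : ∀ r : ℚ, InnerProductGeometry.angle (q - p) (a 1 - a 0) ≠ r * Real.pi

/-- From `Ach` to the Ramsey property. -/
theorem isRamsey_of_ach {n : ℕ} {ι : Type} [Finite ι] (x : ι → EuclideanSpace ℝ (Fin n))
    (h : Ach (fun i j => dist (x i) (x j) ^ 2) (fun _ _ => True))
    (X : Set (EuclideanSpace ℝ (Fin n))) (hX : X ⊆ Set.range x) : IsRamsey X := by
  classical
  have := Fintype.ofFinite ι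
  refine ⟨(Set.finite_range x).subset hX, fun k hk => ?_⟩
  obtain ⟨P, hP, κ, hκ, pt, h⟩ := h (Fin k)
  refine ⟨n + Fintype.card κ, by omega, fun c => ?_⟩
  let Pt : P → EuclideanSpace ℝ (Fin (n + Fintype.card κ)) := fun p =>
    WithLp.toLp 2 (Fin.append (fun _ => 0) (fun i => pt p ((Fintype.equivFin κ).symm i)))
  obtain ⟨φ, h1, h2⟩ := h (fun p => c (Pt p))
  have hdist : ∀ i j, dist (incl (x i) : EuclideanSpace ℝ (Fin (n + Fintype.card κ)))
      (incl (x j)) = dist (Pt (φ i)) (Pt (φ j)) := by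
    intro i j
    have e1 : dist (incl (x i) : EuclideanSpace ℝ (Fin (n + Fintype.card κ))) (incl (x j)) ^ 2 =
        dist (x i) (x j) ^ 2 := by
      rw [EuclideanSpace.dist_sq_eq, EuclideanSpace.dist_sq_eq, Fin.sum_univ_add]
      simp [incl]
    have e2 : dist (Pt (φ i)) (Pt (φ j)) ^ 2 = dist (x i) (x j) ^ 2 := by
      have h1' : ∑ t, (pt (φ i) t - pt (φ j) t) ^ 2 = dist (x i) (x j) ^ 2 := h1 i j
      rw [← h1', EuclideanSpace.dist_sq_eq, Fin.sum_univ_add]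
      simp only [Pt, Fin.append_left, Fin.append_right, dist_self]
      rw [← Equiv.sum_comp (Fintype.equivFin κ).symm
        (fun t => (pt (φ i) t - pt (φ j) t) ^ 2)]
      simp [Real.dist_eq, sq_abs]
    rw [← e2] at e1
    exact (sq_eq_sq₀ dist_nonneg dist_nonneg).mp e1
  obtain ⟨e, he⟩ := exists_isometryEquiv_of_dist
    (fun i => (incl (x i) : EuclideanSpace ℝ (Fin (n + Fintype.card κ)))) (fun i => Pt (φ i)) hdist
  rcases isEmpty_or_nonempty ι with hι | ⟨⟨i₀⟩⟩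
  · refine ⟨e, ⟨0, by omega⟩, fun y hy => ?_⟩
    obtain ⟨i, _⟩ := hX hy
    exact (hι.false i).elim
  · refine ⟨e, c (Pt (φ i₀)), fun y hy => ?_⟩
    obtain ⟨i, rfl⟩ := hX hy
    rw [he]
    exact h2 i i₀ trivial

theorem exists_sg (s : ℝ) (hs : s = 1 ∨ s = -1) : ∃ b, sg b = s := by
  rcases hs with rfl | rfl
  · exact ⟨false, by simp [sg]⟩
  · exact ⟨true, by simp [sg]⟩

/-- The rectangle-plus-pair configuration without any condition on the angle, as long as the pair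
is not parallel to a side. -/
theorem isRamsey_config (c U₀ W₀ d w : EuclideanSpace ℝ (Fin 3)) (hU : U₀ ≠ 0) (hW : W₀ ≠ 0)
    (hU2 : U₀ 2 = 0) (hW2 : W₀ 2 = 0) (hw2 : w 2 = 0) (hd2 : d 2 ≠ 0) (hUW : ⟪U₀, W₀⟫_ℝ = 0)
    (hwU : ⟪w, U₀⟫_ℝ ≠ 0) (hwW : ⟪w, W₀⟫_ℝ ≠ 0) (hdw : ⟪d, w⟫_ℝ = 0)
    (X : Set (EuclideanSpace ℝ (Fin 3)))
    (hX : ∀ x ∈ X, (∃ s t : ℝ, (s = 1 ∨ s = -1) ∧ (t = 1 ∨ t = -1) ∧ x = c + s • U₀ + t • W₀) ∨
      (∃ s : ℝ, (s = 1 ∨ s = -1) ∧ x = c + d + s • w)) : IsRamsey X := by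
  -- coordinates
  have inner_eq : ∀ a b : EuclideanSpace ℝ (Fin 3), ⟪a, b⟫_ℝ = a 0 * b 0 + a 1 * b 1 + a 2 * b 2 := by
    intro a b
    rw [PiLp.inner_apply, Fin.sum_univ_three]
    simp only [RCLike.inner_apply, conj_trivial]
    ring
  have norm_eq : ∀ a : EuclideanSpace ℝ (Fin 3), ‖a‖ ^ 2 = a 0 ^ 2 + a 1 ^ 2 + a 2 ^ 2 := by
    intro a
    rw [← real_inner_self_eq_norm_sq, inner_eq]
    ring
  have hA : 0 < U₀ 0 ^ 2 + U₀ 1 ^ 2 := by
    have := norm_pos_iff.mpr hU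
    have h1 : 0 < ‖U₀‖ ^ 2 := by positivity
    rw [norm_eq, hU2] at h1
    linarith
  have hB : 0 < W₀ 0 ^ 2 + W₀ 1 ^ 2 := by
    have := norm_pos_iff.mpr hW
    have h1 : 0 < ‖W₀‖ ^ 2 := by positivity
    rw [norm_eq, hW2] at h1
    linarith
  have hUW' : U₀ 0 * W₀ 0 + U₀ 1 * W₀ 1 = 0 := by
    rw [inner_eq, hU2, hW2] at hUW
    linarith
  obtain ⟨l, hl0, hl1⟩ : ∃ l : ℝ, W₀ 0 = - l * U₀ 1 ∧ W₀ 1 = l * U₀ 0 := by
    refine ⟨(U₀ 0 * W₀ 1 - U₀ 1 * W₀ 0) / (U₀ 0 ^ 2 + U₀ 1 ^ 2), ?_, ?_⟩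
    · field_simp
      linear_combination (U₀ 0) * hUW'
    · field_simp
      linear_combination (U₀ 1) * hUW'
  have hl : l ≠ 0 := by
    rintro rfl
    rw [hl0, hl1] at hB
    simp at hB
  set al := ⟪w, U₀⟫_ℝ / ‖U₀‖ ^ 2 with hal
  set be := ⟪w, W₀⟫_ℝ / ‖W₀‖ ^ 2 with hbe
  have hNU : ‖U₀‖ ^ 2 = U₀ 0 ^ 2 + U₀ 1 ^ 2 := by rw [norm_eq, hU2]; ring
  have hNW : ‖W₀‖ ^ 2 = l ^ 2 * (U₀ 0 ^ 2 + U₀ 1 ^ 2) := by rw [norm_eq, hW2, hl0, hl1]; ring
  have hw : w = al • U₀ + be • W₀ := by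
    ext i
    rw [hal, hbe, hNU, hNW, inner_eq, inner_eq, hU2, hW2, hl0, hl1]
    fin_cases i
    · simp only [PiLp.add_apply, PiLp.smul_apply, smul_eq_mul, Fin.zero_eta, Fin.isValue]
      rw [hl0]
      field_simp
      ring
    · simp only [PiLp.add_apply, PiLp.smul_apply, smul_eq_mul, Fin.mk_one, Fin.isValue]
      rw [hl1]
      field_simp
      ring
    · simp only [PiLp.add_apply, PiLp.smul_apply, smul_eq_mul, Fin.reduceFinMk, Fin.isValue]
      rw [hU2, hW2, hw2]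
      ring
  have hlt : ⟪d, U₀⟫_ℝ ^ 2 / ‖U₀‖ ^ 2 + ⟪d, W₀⟫_ℝ ^ 2 / ‖W₀‖ ^ 2 < ‖d‖ ^ 2 := by
    rw [hNU, hNW, inner_eq, inner_eq, hU2, hW2, hl0, hl1, norm_eq]
    have e : (d 0 * U₀ 0 + d 1 * U₀ 1 + d 2 * 0) ^ 2 / (U₀ 0 ^ 2 + U₀ 1 ^ 2) +
        (d 0 * (-l * U₀ 1) + d 1 * (l * U₀ 0) + d 2 * 0) ^ 2 / (l ^ 2 * (U₀ 0 ^ 2 + U₀ 1 ^ 2)) =
        d 0 ^ 2 + d 1 ^ 2 := by
      field_simp
      ring
    rw [e]
    have : 0 < d 2 ^ 2 := by positivity
    linarith
  -- signs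
  have hsign : ∀ r : ℝ, r ≠ 0 → ∃ s : ℝ, (s = 1 ∨ s = -1) ∧ 0 < s * r := by
    intro r hr
    rcases lt_or_gt_of_ne hr with h | h
    · exact ⟨-1, Or.inr rfl, by linarith⟩
    · exact ⟨1, Or.inl rfl, by linarith⟩
  have hNU0 : ‖U₀‖ ^ 2 ≠ 0 := by rw [hNU]; exact hA.ne'
  have hNW0 : ‖W₀‖ ^ 2 ≠ 0 := pow_ne_zero _ (norm_ne_zero_iff.mpr hW)
  obtain ⟨s₁, hs₁, hal'⟩ := hsign al (div_ne_zero hwU hNU0)
  obtain ⟨s₂, hs₂, hbe'⟩ := hsign be (div_ne_zero hwW hNW0)
  have hsq₁ : s₁ * s₁ = 1 := by rcases hs₁ with rfl | rfl <;> norm_num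
  have hsq₂ : s₂ * s₂ = 1 := by rcases hs₂ with rfl | rfl <;> norm_num
  have hn₁ : ‖s₁ • U₀‖ ^ 2 = ‖U₀‖ ^ 2 := by
    rw [norm_smul, mul_pow, Real.norm_eq_abs, sq_abs, sq s₁, hsq₁, one_mul]
  have hn₂ : ‖s₂ • W₀‖ ^ 2 = ‖W₀‖ ^ 2 := by
    rw [norm_smul, mul_pow, Real.norm_eq_abs, sq_abs, sq s₂, hsq₂, one_mul]
  have hs₁0 : s₁ ≠ 0 := by rintro rfl; norm_num at hsq₁
  have hs₂0 : s₂ ≠ 0 := by rintro rfl; norm_num at hsq₂
  have key := ach_config c (s₁ • U₀) (s₂ • W₀) d (s₁ * al) (s₂ * be)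
    (smul_ne_zero hs₁0 hU) (smul_ne_zero hs₂0 hW)
    (by rw [real_inner_smul_left, real_inner_smul_right, hUW]; ring) hal' hbe'
    (by
      rw [real_inner_smul_right, real_inner_smul_right]
      have e1 : ⟪d, w⟫_ℝ = al * ⟪d, U₀⟫_ℝ + be * ⟪d, W₀⟫_ℝ := by
        conv_lhs => rw [hw]
        rw [inner_add_right, real_inner_smul_right, real_inner_smul_right]
      rw [hdw] at e1
      linear_combination (al * ⟪d, U₀⟫_ℝ) * hsq₁ + (be * ⟪d, W₀⟫_ℝ) * hsq₂ - e1)
    (by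
      rw [hn₁, hn₂, real_inner_smul_right, real_inner_smul_right, mul_pow, mul_pow, sq s₁, sq s₂,
        hsq₁, hsq₂, one_mul, one_mul]
      exact hlt)
  refine isRamsey_of_ach _ key X (fun x hx => ?_)
  rcases hX x hx with ⟨s, t, hs, ht, rfl⟩ | ⟨s, hs, rfl⟩
  · obtain ⟨b₁, hb₁⟩ := exists_sg (s * s₁) (by
      rcases hs with rfl | rfl <;> rcases hs₁ with rfl | rfl <;> norm_num)
    obtain ⟨b₂, hb₂⟩ := exists_sg (t * s₂) (by
      rcases ht with rfl | rfl <;> rcases hs₂ with rfl | rfl <;> norm_num)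
    refine ⟨Sum.inl (b₁, b₂), ?_⟩
    simp only [pts, cA, cB, cK, hb₁, hb₂, zero_smul, add_zero]
    rw [smul_smul, smul_smul, mul_assoc, mul_assoc, hsq₁, hsq₂, mul_one, mul_one]
  · obtain ⟨b, hb⟩ := exists_sg s hs
    refine ⟨Sum.inr b, ?_⟩
    simp only [pts, cA, cB, cK, hb, one_smul]
    rw [smul_smul, smul_smul]
    have e1 : s * (s₁ * al) * s₁ = s * al := by linear_combination (s * al) * hsq₁
    have e2 : s * (s₂ * be) * s₂ = s * be := by linear_combination (s * be) * hsq₂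
    rw [e1, e2]
    conv_rhs => rw [hw]
    module

/-- **Every admissible configuration is Ramsey.** -/
theorem result : ∀ (a : Fin 4 → EuclideanSpace ℝ (Fin 3)) (p q : EuclideanSpace ℝ (Fin 3)),
    Admissible a p q → IsRamsey (Set.range a ∪ {p, q}) := by
  intro a p q h
  have inner_eq : ∀ a b : EuclideanSpace ℝ (Fin 3), ⟪a, b⟫_ℝ = a 0 * b 0 + a 1 * b 1 + a 2 * b 2 := by
    intro a b
    rw [PiLp.inner_apply, Fin.sum_univ_three]
    simp only [RCLike.inner_apply, conj_trivial]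
    ring
  have hpar : a 2 = a 1 - a 0 + a 3 := by rw [h.parallelogram]; abel
  -- data
  have hm0 : ∀ x y : EuclideanSpace ℝ (Fin 3), midpoint ℝ x y = (1 / 2 : ℝ) • (x + y) := by
    intro x y
    rw [midpoint_eq_smul_add]
    norm_num
  have hperp := h.perp
  rw [hm0, hm0] at hperp
  refine isRamsey_config (midpoint ℝ (a 0) (a 2)) ((1 / 2 : ℝ) • (a 1 - a 0))
    ((1 / 2 : ℝ) • (a 3 - a 0)) (midpoint ℝ p q - midpoint ℝ (a 0) (a 2)) ((1 / 2 : ℝ) • (q - p))
    ?_ ?_ ?_ ?_ ?_ ?_ ?_ ?_ ?_ ?_ _ ?_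
  · exact smul_ne_zero (by norm_num) (sub_ne_zero.mpr h.side₁)
  · exact smul_ne_zero (by norm_num) (sub_ne_zero.mpr h.side₂)
  · simp [h.flat]
  · simp [h.flat]
  · simp [h.height]
  · rw [hm0, hm0]
    simp only [PiLp.sub_apply, PiLp.smul_apply, PiLp.add_apply, h.flat, smul_eq_mul]
    have h1 := h.pos
    have h2 := h.height
    intro h3
    rw [← h2] at h3
    linarith
  · rw [real_inner_smul_left, real_inner_smul_right, h.perpendicular]
    ring
  · -- not perpendicular to the first side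
    rw [real_inner_smul_left, real_inner_smul_right]
    intro h0
    have h1 : ⟪q - p, a 1 - a 0⟫_ℝ = 0 := by linarith
    have h2 := (InnerProductGeometry.inner_eq_zero_iff_angle_eq_pi_div_two _ _).mp h1
    apply h.angle (1 / 2)
    rw [h2]
    push_cast
    ring
  · -- not perpendicular to the second side, i.e. not parallel to the first
    rw [real_inner_smul_left, real_inner_smul_right]
    intro h0
    have h1 : ⟪q - p, a 3 - a 0⟫_ℝ = 0 := by linarith
    have hv2 : (q - p) 2 = 0 := by simp [h.height]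
    have he2 : (a 1 - a 0) 2 = 0 := by simp [h.flat]
    have hf2 : (a 3 - a 0) 2 = 0 := by simp [h.flat]
    have hv0 : q - p ≠ 0 := sub_ne_zero.mpr h.ne.symm
    have he0 : a 1 - a 0 ≠ 0 := sub_ne_zero.mpr h.side₁
    have hf0 : a 3 - a 0 ≠ 0 := sub_ne_zero.mpr h.side₂
    have hef := h.perpendicular
    have hang := h.angle
    generalize q - p = v at h1 hv2 hv0 hang
    generalize a 1 - a 0 = e at he2 he0 hef hang
    generalize a 3 - a 0 = f at h1 hf2 hf0 hef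
    rw [inner_eq, hv2] at h1
    rw [inner_eq, he2] at hef
    have hf0' : f 0 ≠ 0 ∨ f 1 ≠ 0 := by
      by_contra hcon
      push Not at hcon
      apply hf0
      ext i
      fin_cases i
      · exact hcon.1
      · exact hcon.2
      · exact hf2
    have he0' : 0 < e 0 ^ 2 + e 1 ^ 2 := by
      by_contra hcon
      apply he0
      have h3 : e 0 = 0 := by nlinarith [sq_nonneg (e 0), sq_nonneg (e 1)]
      have h4 : e 1 = 0 := by nlinarith [sq_nonneg (e 0), sq_nonneg (e 1)]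
      ext i
      fin_cases i
      · exact h3
      · exact h4
      · exact he2
    have hdet : v 0 * e 1 - v 1 * e 0 = 0 := by
      rcases hf0' with hf | hf
      · apply mul_left_cancel₀ hf
        linear_combination e 1 * h1 - v 1 * hef
      · apply mul_left_cancel₀ hf
        linear_combination - e 0 * h1 + v 0 * hef
    have hv : v = ((v 0 * e 0 + v 1 * e 1) / (e 0 ^ 2 + e 1 ^ 2)) • e := by
      ext i
      fin_cases i
      · simp only [PiLp.smul_apply, smul_eq_mul, Fin.zero_eta, Fin.isValue]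
        field_simp
        linear_combination e 1 * hdet
      · simp only [PiLp.smul_apply, smul_eq_mul, Fin.mk_one, Fin.isValue]
        field_simp
        linear_combination - e 0 * hdet
      · simp only [PiLp.smul_apply, smul_eq_mul, Fin.reduceFinMk, Fin.isValue]
        rw [hv2, he2]
        ring
    set κ := (v 0 * e 0 + v 1 * e 1) / (e 0 ^ 2 + e 1 ^ 2) with hκ
    have hκ0 : κ ≠ 0 := by
      rintro h0'
      rw [h0', zero_smul] at hv
      exact hv0 hv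
    rcases lt_or_gt_of_ne hκ0 with hneg | hpos
    · apply hang 1
      rw [hv, InnerProductGeometry.angle_smul_left_of_neg _ _ hneg,
        InnerProductGeometry.angle_neg_left, InnerProductGeometry.angle_self he0]
      push_cast
      ring
    · apply hang 0
      rw [hv, InnerProductGeometry.angle_smul_left_of_pos _ _ hpos,
        InnerProductGeometry.angle_self he0]
      push_cast
      ring
  · rw [hm0, hm0, real_inner_smul_right, ← neg_sub, inner_neg_left, hperp]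
    ring
  · intro x hx
    rcases hx with ⟨i, rfl⟩ | hx
    · left
      rw [hm0]
      fin_cases i
      · refine ⟨-1, -1, Or.inr rfl, Or.inr rfl, ?_⟩
        simp only [Fin.zero_eta, Fin.isValue]
        rw [hpar]
        module
      · refine ⟨1, -1, Or.inl rfl, Or.inr rfl, ?_⟩
        simp only [Fin.mk_one, Fin.isValue]
        rw [hpar]
        module
      · refine ⟨1, 1, Or.inl rfl, Or.inl rfl, ?_⟩
        simp only [Fin.reduceFinMk, Fin.isValue]
        rw [hpar]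
        module
      · refine ⟨-1, 1, Or.inr rfl, Or.inl rfl, ?_⟩
        simp only [Fin.reduceFinMk, Fin.isValue]
        rw [hpar]
        module
    · right
      rw [hm0, hm0]
      rcases hx with rfl | hx
      · refine ⟨-1, Or.inr rfl, ?_⟩
        module
      · rw [Set.mem_singleton_iff] at hx
        subst hx
        refine ⟨1, Or.inl rfl, ?_⟩
        module

end Pool.Agent.Results.MP_e0af59_co.AdmissibleRamsey
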